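import Pool.Agent.Y462.PA.Stm
import Pool.Agent.Y331.SS.Lim

/-! Project PA: approximation of a vertex group by the quotients of its cover. -/

set_option autoImplicit false

open Classical

namespace Pool.Agent.Y624.PA

open Pool.Agent.Y462.SS Pool.Agent.Y462.PA Pool.Agent.Y331.SS
open Pool.Agent.Y110.FJ (ClosedE)

section three

variable {C : ∀ (G : Type) [Group G], Prop} {X : Type} {d : X} {P : ℕ} {H : Subgroup (T X)}
  (W : Ctx C d P H) {A : Type} [Group A] (m : H →* A) (b : Bd d P H →* A)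

/-- the first factor -/
noncomputable def jV : W.V →* SS3 W A m b :=
  (Am.inl ((Am.inr W.iV m).comp b) W.iU).comp (Am.inl W.iV m)

/-- the middle factor -/
noncomputable def jA : A →* SS3 W A m b :=
  (Am.inl ((Am.inr W.iV m).comp b) W.iU).comp (Am.inr W.iV m)

/-- the last factor -/
noncomputable def jU : W.U →* SS3 W A m b := Am.inr ((Am.inr W.iV m).comp b) W.iU

theorem glueH (h : H) : jV W m b (W.iV h) = jA W m b (m h) := by
  change Am.inl ((Am.inr W.iV m).comp b) W.iU (Am.inl W.iV m (W.iV h)) = _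
  rw [Am.glue]
  rfl

theorem glueB (c : Bd d P H) : jA W m b (b c) = jU W m b (W.iU c) :=
  Am.glue ((Am.inr W.iV m).comp b) W.iU c

variable {L : Type} [Group L]

/-- the universal property -/
noncomputable def lift3 (fV : W.V →* L) (fA : A →* L) (fU : W.U →* L)
    (h1 : ∀ h, fV (W.iV h) = fA (m h)) (h2 : ∀ c, fA (b c) = fU (W.iU c)) : SS3 W A m b →* L :=
  Am.lift ((Am.inr W.iV m).comp b) W.iU (Am.lift W.iV m fV fA h1) fU (by
    intro c
    rw [MonoidHom.comp_apply, Am.lift_inr]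
    exact h2 c)

theorem lift3_V (fV : W.V →* L) (fA : A →* L) (fU : W.U →* L)
    (h1 : ∀ h, fV (W.iV h) = fA (m h)) (h2 : ∀ c, fA (b c) = fU (W.iU c)) (v : W.V) :
    lift3 W m b fV fA fU h1 h2 (jV W m b v) = fV v := by
  change Am.lift _ _ _ _ _ (Am.inl _ _ _) = _
  rw [Am.lift_inl, Am.lift_inl]

theorem lift3_A (fV : W.V →* L) (fA : A →* L) (fU : W.U →* L)
    (h1 : ∀ h, fV (W.iV h) = fA (m h)) (h2 : ∀ c, fA (b c) = fU (W.iU c)) (a : A) :
    lift3 W m b fV fA fU h1 h2 (jA W m b a) = fA a := by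
  change Am.lift _ _ _ _ _ (Am.inl _ _ _) = _
  rw [Am.lift_inl, Am.lift_inr]

theorem lift3_U (fV : W.V →* L) (fA : A →* L) (fU : W.U →* L)
    (h1 : ∀ h, fV (W.iV h) = fA (m h)) (h2 : ∀ c, fA (b c) = fU (W.iU c)) (u : W.U) :
    lift3 W m b fV fA fU h1 h2 (jU W m b u) = fU u := by
  change Am.lift _ _ _ _ _ (Am.inr _ _ _) = _
  rw [Am.lift_inr]

theorem ext3 {f g : SS3 W A m b →* L} (hV : ∀ v, f (jV W m b v) = g (jV W m b v))
    (hA : ∀ a, f (jA W m b a) = g (jA W m b a)) (hU : ∀ u, f (jU W m b u) = g (jU W m b u)) :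
    f = g := by
  refine Am.hom_ext _ _ (fun x => ?_) hU
  have h1 : f.comp (Am.inl ((Am.inr W.iV m).comp b) W.iU) =
      g.comp (Am.inl ((Am.inr W.iV m).comp b) W.iU) := Am.hom_ext _ _ hV hA
  exact DFunLike.congr_fun h1 x

theorem range3 (K : Subgroup (SS3 W A m b)) (hV : ∀ v, jV W m b v ∈ K)
    (hA : ∀ a, jA W m b a ∈ K) (hU : ∀ u, jU W m b u ∈ K) (y : SS3 W A m b) : y ∈ K := by
  have h1 : (Am.inl ((Am.inr W.iV m).comp b) W.iU).range ⊔
      (Am.inr ((Am.inr W.iV m).comp b) W.iU).range ≤ K := by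
    refine sup_le ?_ ?_
    · rintro _ ⟨x, rfl⟩
      have h2 : (Am.inl W.iV m).range ⊔ (Am.inr W.iV m).range ≤
          K.comap (Am.inl ((Am.inr W.iV m).comp b) W.iU) := by
        refine sup_le ?_ ?_
        · rintro _ ⟨v, rfl⟩
          exact hV v
        · rintro _ ⟨a, rfl⟩
          exact hA a
      rw [Am.sup_range] at h2
      exact h2 (Subgroup.mem_top x)
    · rintro _ ⟨u, rfl⟩
      exact hU u
  rw [Am.sup_range] at h1
  exact h1 (Subgroup.mem_top y)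

/-- the middle group is functorial -/
noncomputable def map3 {A' : Type} [Group A'] (m' : H →* A') (b' : Bd d P H →* A') (f : A →* A')
    (hm : ∀ h, f (m h) = m' h) (hb : ∀ c, f (b c) = b' c) : SS3 W A m b →* SS3 W A' m' b' :=
  lift3 W m b (jV W m' b') ((jA W m' b').comp f) (jU W m' b')
    (fun h => by rw [MonoidHom.comp_apply, hm, glueH])
    (fun c => by rw [MonoidHom.comp_apply, hb, glueB])

variable {A' : Type} [Group A'] (m' : H →* A') (b' : Bd d P H →* A') (f : A →* A')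
    (hm : ∀ h, f (m h) = m' h) (hb : ∀ c, f (b c) = b' c)

theorem map3_V (v : W.V) : map3 W m b m' b' f hm hb (jV W m b v) = jV W m' b' v :=
  lift3_V _ _ _ _ _ _ _ _ v

theorem map3_A (a : A) : map3 W m b m' b' f hm hb (jA W m b a) = jA W m' b' (f a) :=
  lift3_A _ _ _ _ _ _ _ _ a

theorem map3_U (u : W.U) : map3 W m b m' b' f hm hb (jU W m b u) = jU W m' b' u :=
  lift3_U _ _ _ _ _ _ _ _ u

theorem inj3 (hINJ : S_AMINJ) (im : Function.Injective m) (ib : Function.Injective b) :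
    Function.Injective (jV W m b) ∧ Function.Injective (jA W m b) ∧
      Function.Injective (jU W m b) := by
  have h1 := hINJ H W.V A W.iV m W.iV_inj im
  have h2 := hINJ (Bd d P H) (Am W.iV m) W.U ((Am.inr W.iV m).comp b) W.iU
    (h1.2.comp ib) W.iU_inj
  exact ⟨h2.1.comp h1.1, h2.1.comp h1.2, h2.2⟩

/-- the tool -/
theorem tool (hINJ : S_AMINJ) (hTLA : S_TLA) (hC : ClosedE C) (im : Function.Injective m)
    (ib : Function.Injective b) (F : SS3 W A m b →* L) (hL : C L)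
    (hV : ∀ B ∈ W.FV, ∀ v ∈ B, F (jV W m b v) = 1 → v = 1)
    (hA : ∀ a, F (jA W m b a) = 1 → a = 1)
    (hU : ∀ B ∈ W.FU, ∀ u ∈ B, F (jU W m b u) = 1 → u = 1) : C (SS3 W A m b) := by
  have h1 := hINJ H W.V A W.iV m W.iV_inj im
  have t1 : TL C A {⊤} := by
    intro Q _ f hQ hf
    refine ⟨Q, inferInstance, f, hQ, ?_, ?_⟩
    · rw [injective_iff_map_eq_one]
      intro a ha
      exact hf ⊤ rfl a (Subgroup.mem_top a) ha
    · intro B _
      exact ⟨MonoidHom.id Q, Function.injective_id, fun a _ => rfl⟩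
  have t2 := hTLA C hC H W.V A W.iV m W.iV_inj im W.FV {⊤} W.tV t1 W.iV_le ⟨⊤, rfl, le_top⟩
  have t3 := hTLA C hC (Bd d P H) (Am W.iV m) W.U ((Am.inr W.iV m).comp b) W.iU
    (h1.2.comp ib) W.iU_inj _ W.FU t2 W.tU
    ⟨Subgroup.map (Am.inr W.iV m) ⊤, Or.inr ⟨⊤, rfl, rfl⟩, by
      rintro _ ⟨c, rfl⟩
      exact ⟨b c, Subgroup.mem_top _, rfl⟩⟩ W.iU_le
  obtain ⟨Q, _, Θ, hQ, hΘ, -⟩ := t3 L F hL (by
    rintro B (⟨B', (⟨B'', hB'', rfl⟩ | ⟨B'', hB'', rfl⟩), rfl⟩ | ⟨B', hB', rfl⟩) a ha ha1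
    · obtain ⟨a', ha', rfl⟩ := ha
      obtain ⟨v, hv, rfl⟩ := ha'
      rw [hV B'' hB'' v hv ha1, map_one, map_one]
    · obtain ⟨a', ha', rfl⟩ := ha
      obtain ⟨v, hv, rfl⟩ := ha'
      rw [hA v ha1, map_one, map_one]
    · obtain ⟨u, hu, rfl⟩ := ha
      rw [hU B' hB' u hu ha1, map_one])
  exact hC.base.of_injective _ _ Θ hΘ hQ

/-- the recursion on the last factor -/
noncomputable def stepU (fV : W.V →* L) (fU : W.U →* L) : W.U →* Wr X L where
  toFun u := ⟨fun x => if x = d then fU (W.rU u) else fV ((W.oU u).s x), (W.oU u).p⟩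
  map_one' := by
    ext x
    · change (if x = d then fU (W.rU 1) else fV ((W.oU 1).s x)) = 1
      split_ifs
      · rw [map_one, map_one]
      · rw [map_one, Wr.one_s, map_one]
    · change (W.oU 1).p x = x
      rw [map_one]
      rfl
  map_mul' u v := by
    ext x
    · rw [Wr.mul_s]
      change (if x = d then fU (W.rU (u * v)) else fV ((W.oU (u * v)).s x)) =
        (if (W.oU v).p x = d then fU (W.rU u) else fV ((W.oU u).s ((W.oU v).p x))) *
          (if x = d then fU (W.rU v) else fV ((W.oU v).s x))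
      by_cases hx : x = d
      · rw [if_pos hx, if_pos (by rw [hx]; exact W.oU_p v), if_pos hx, map_mul, map_mul]
      · have h1 : (W.oU v).p x ≠ d := by
          intro h
          exact hx ((W.oU v).p.injective (h.trans (W.oU_p v).symm))
        rw [if_neg hx, if_neg h1, if_neg hx, map_mul, Wr.mul_s, map_mul]
    · change (W.oU (u * v)).p x = ((W.oU u).p * (W.oU v).p) x
      rw [map_mul]
      rfl

end three

theorem al_add {X : Type} (d : X) (h : T X) (n : ℕ) :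
    al (dray d) (sec h d) n = al (dray d) h (n + 1) := by
  induction n with
  | zero => rfl
  | succ n ih =>
    rw [al, ih]
    rfl

theorem sec_mem_Bd {X : Type} {d : X} {P : ℕ} {H : Subgroup (T X)} {c : T X}
    (hc : c ∈ Bd d P H) : sec c d ∈ Bd d P H := by
  obtain ⟨h1, h2, h3⟩ := hc
  refine ⟨fun n => ?_, ?_, fun n x hx => ?_⟩
  · rw [al_add]
    exact h1 (n + 1)
  · rw [al_add]
    change sec (al (dray d) c P) d = _
    rw [h2]
  · rw [al_add]
    exact h3 (n + 1) x hx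

section tower

variable {C : ∀ (G : Type) [Group G], Prop} {X : Type} {d : X} {P : ℕ} {H : Subgroup (T X)}
  (W : Ctx C d P H) {G : Type} [Group G] (ψ : G →* Wr X G) (mG : H →* G) (bG : Bd d P H →* G)

/-- the homomorphism of `H` -/
abbrev mN (n : ℕ) : H →* (G ⧸ Kn ψ n) := (QuotientGroup.mk' (Kn ψ n)).comp mG

/-- the homomorphism of `Bd d P H` -/
abbrev bN (n : ℕ) : Bd d P H →* (G ⧸ Kn ψ n) := (QuotientGroup.mk' (Kn ψ n)).comp bG

/-- the approximations -/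
abbrev Ln (n : ℕ) : Type :=
  SS3 W (G ⧸ Kn ψ n) (mN ψ mG n) (bN ψ bG n)

/-- the image of `V` -/
noncomputable def nV (n : ℕ) : W.V →* Ln W ψ mG bG n := jV W (mN ψ mG n) (bN ψ bG n)

/-- the image of `G` -/
noncomputable def nG (n : ℕ) : G →* Ln W ψ mG bG n :=
  (jA W (mN ψ mG n) (bN ψ bG n)).comp (QuotientGroup.mk' (Kn ψ n))

/-- the image of `U` -/
noncomputable def nU (n : ℕ) : W.U →* Ln W ψ mG bG n := jU W (mN ψ mG n) (bN ψ bG n)

theorem glueHn (n : ℕ) (h : H) : nV W ψ mG bG n (W.iV h) = nG W ψ mG bG n (mG h) :=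
  glueH W (mN ψ mG n) (bN ψ bG n) h

theorem glueBn (n : ℕ) (c : Bd d P H) : nG W ψ mG bG n (bG c) = nU W ψ mG bG n (W.iU c) :=
  glueB W (mN ψ mG n) (bN ψ bG n) c

theorem extn {n : ℕ} {L : Type} [Group L] {f g : Ln W ψ mG bG n →* L}
    (hV : ∀ v, f (nV W ψ mG bG n v) = g (nV W ψ mG bG n v))
    (hG : ∀ a, f (nG W ψ mG bG n a) = g (nG W ψ mG bG n a))
    (hU : ∀ u, f (nU W ψ mG bG n u) = g (nU W ψ mG bG n u)) : f = g := by
  refine ext3 W _ _ hV (fun a => ?_) hU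
  obtain ⟨γ, rfl⟩ := QuotientGroup.mk'_surjective (Kn ψ n) a
  exact hG γ

theorem rangen {n : ℕ} (K : Subgroup (Ln W ψ mG bG n)) (hV : ∀ v, nV W ψ mG bG n v ∈ K)
    (hG : ∀ a, nG W ψ mG bG n a ∈ K) (hU : ∀ u, nU W ψ mG bG n u ∈ K)
    (y : Ln W ψ mG bG n) : y ∈ K := by
  refine range3 W _ _ K hV (fun a => ?_) hU y
  obtain ⟨γ, rfl⟩ := QuotientGroup.mk'_surjective (Kn ψ n) a
  exact hG γ

/-- the maps of the system -/
noncomputable def fn (i j : ℕ) (h : i ≤ j) : Ln W ψ mG bG i →* Ln W ψ mG bG j :=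
  map3 W _ _ _ _ (QuotientGroup.map (Kn ψ i) (Kn ψ j) (MonoidHom.id G) (Kn_mono ψ h))
    (fun _ => rfl) (fun _ => rfl)

theorem fn_V {i j : ℕ} (h : i ≤ j) (v : W.V) :
    fn W ψ mG bG i j h (nV W ψ mG bG i v) = nV W ψ mG bG j v := map3_V _ _ _ _ _ _ _ _ v

theorem fn_G {i j : ℕ} (h : i ≤ j) (a : G) :
    fn W ψ mG bG i j h (nG W ψ mG bG i a) = nG W ψ mG bG j a := map3_A _ _ _ _ _ _ _ _ _

theorem fn_U {i j : ℕ} (h : i ≤ j) (u : W.U) :
    fn W ψ mG bG i j h (nU W ψ mG bG i u) = nU W ψ mG bG j u := map3_U _ _ _ _ _ _ _ _ u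

theorem fn_comp {i j k : ℕ} (h : i ≤ j) (h' : j ≤ k) (x : Ln W ψ mG bG i) :
    fn W ψ mG bG j k h' (fn W ψ mG bG i j h x) = fn W ψ mG bG i k (h.trans h') x := by
  have h1 : (fn W ψ mG bG j k h').comp (fn W ψ mG bG i j h) = fn W ψ mG bG i k (h.trans h') := by
    refine extn W ψ mG bG (fun v => ?_) (fun a => ?_) (fun u => ?_)
    · rw [MonoidHom.comp_apply, fn_V, fn_V, fn_V]
    · rw [MonoidHom.comp_apply, fn_G, fn_G, fn_G]
    · rw [MonoidHom.comp_apply, fn_U, fn_U, fn_U]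
  exact DFunLike.congr_fun h1 x

theorem fn_id {i : ℕ} (h : i ≤ i) (x : Ln W ψ mG bG i) : fn W ψ mG bG i i h x = x := by
  have h1 : fn W ψ mG bG i i h = MonoidHom.id _ := by
    refine extn W ψ mG bG (fun v => ?_) (fun a => ?_) (fun u => ?_)
    · rw [fn_V, MonoidHom.id_apply]
    · rw [fn_G, MonoidHom.id_apply]
    · rw [fn_U, MonoidHom.id_apply]
  exact DFunLike.congr_fun h1 x

theorem fn_surj {j : ℕ} (x : Ln W ψ mG bG j) :
    ∃ x0 : Ln W ψ mG bG 0, fn W ψ mG bG 0 j (Nat.zero_le j) x0 = x := by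
  have h1 := rangen W ψ mG bG (fn W ψ mG bG 0 j (Nat.zero_le j)).range
    (fun v => ⟨_, fn_V W ψ mG bG _ v⟩) (fun a => ⟨_, fn_G W ψ mG bG _ a⟩)
    (fun u => ⟨_, fn_U W ψ mG bG _ u⟩) x
  exact h1

/-- the elements which die in the system -/
noncomputable def dyn : Subgroup (Ln W ψ mG bG 0) where
  carrier := {y | ∃ j, fn W ψ mG bG 0 j (Nat.zero_le j) y = 1}
  one_mem' := ⟨0, map_one _⟩
  mul_mem' := by
    rintro a b ⟨j, hj⟩ ⟨k, hk⟩
    refine ⟨max j k, ?_⟩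
    rw [map_mul, ← fn_comp W ψ mG bG (Nat.zero_le j) (le_max_left j k) a, hj, map_one, one_mul,
      ← fn_comp W ψ mG bG (Nat.zero_le k) (le_max_right j k) b, hk, map_one]
  inv_mem' := by
    rintro a ⟨j, hj⟩
    exact ⟨j, by rw [map_inv, hj, inv_one]⟩

theorem mem_dyn {y : Ln W ψ mG bG 0} :
    y ∈ dyn W ψ mG bG ↔ ∃ j, fn W ψ mG bG 0 j (Nat.zero_le j) y = 1 := Iff.rfl

instance dyn_normal : (dyn W ψ mG bG).Normal := by
  refine ⟨fun a ha g => ?_⟩
  obtain ⟨j, hj⟩ := ha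
  exact ⟨j, by rw [map_mul, map_mul, hj, mul_one, map_inv, mul_inv_cancel]⟩

variable {N : Type} [Group N] (π : G →* N) (hle : ∀ n, ∀ γ ∈ Kn ψ n, π γ = 1)

/-- the maps to the limit -/
noncomputable def gn (n : ℕ) : Ln W ψ mG bG n →* SS3 W N (π.comp mG) (π.comp bG) :=
  map3 W _ _ _ _ (QuotientGroup.lift (Kn ψ n) π (hle n)) (fun _ => rfl) (fun _ => rfl)

theorem gn_V {n : ℕ} (v : W.V) :
    gn W ψ mG bG π hle n (nV W ψ mG bG n v) = jV W _ _ v := map3_V _ _ _ _ _ _ _ _ v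

theorem gn_G {n : ℕ} (a : G) :
    gn W ψ mG bG π hle n (nG W ψ mG bG n a) = jA W _ _ (π a) := map3_A _ _ _ _ _ _ _ _ _

theorem gn_U {n : ℕ} (u : W.U) :
    gn W ψ mG bG π hle n (nU W ψ mG bG n u) = jU W _ _ u := map3_U _ _ _ _ _ _ _ _ u

theorem gn_fn {i j : ℕ} (h : i ≤ j) (x : Ln W ψ mG bG i) :
    gn W ψ mG bG π hle j (fn W ψ mG bG i j h x) = gn W ψ mG bG π hle i x := by
  have h1 : (gn W ψ mG bG π hle j).comp (fn W ψ mG bG i j h) = gn W ψ mG bG π hle i := by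
    refine extn W ψ mG bG (fun v => ?_) (fun a => ?_) (fun u => ?_)
    · rw [MonoidHom.comp_apply, fn_V, gn_V, gn_V]
    · rw [MonoidHom.comp_apply, fn_G, gn_G, gn_G]
    · rw [MonoidHom.comp_apply, fn_U, gn_U, gn_U]
  exact DFunLike.congr_fun h1 x

theorem gn_surj (hπ : Function.Surjective π) (y : SS3 W N (π.comp mG) (π.comp bG)) :
    ∃ x, gn W ψ mG bG π hle 0 x = y := by
  have h1 := range3 W _ _ (gn W ψ mG bG π hle 0).range
    (fun v => ⟨_, gn_V W ψ mG bG π hle v⟩) (fun a => by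
      obtain ⟨γ, rfl⟩ := hπ a
      exact ⟨_, gn_G W ψ mG bG π hle γ⟩)
    (fun u => ⟨_, gn_U W ψ mG bG π hle u⟩) y
  exact h1

theorem gn_ker (hπ : Function.Surjective π) (hker : ∀ γ, π γ = 1 → ∃ n, γ ∈ Kn ψ n)
    {x : Ln W ψ mG bG 0} (hx : gn W ψ mG bG π hle 0 x = 1) : x ∈ dyn W ψ mG bG := by
  have h1 : π.ker ≤ ((QuotientGroup.mk' (dyn W ψ mG bG)).comp (nG W ψ mG bG 0)).ker := by
    intro γ hγ
    rw [MonoidHom.mem_ker] at hγ ⊢
    obtain ⟨n, hn⟩ := hker γ hγ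
    refine (QuotientGroup.eq_one_iff _).2 ((mem_dyn W ψ mG bG).2 ⟨n, ?_⟩)
    rw [fn_G]
    change jA W _ _ (QuotientGroup.mk' (Kn ψ n) γ) = 1
    rw [show QuotientGroup.mk' (Kn ψ n) γ = 1 from (QuotientGroup.eq_one_iff _).2 hn, map_one]
  obtain ⟨rA, hrA⟩ : ∃ rA : N →* (Ln W ψ mG bG 0 ⧸ dyn W ψ mG bG), ∀ γ,
      rA (π γ) = QuotientGroup.mk' (dyn W ψ mG bG) (nG W ψ mG bG 0 γ) :=
    ⟨π.liftOfRightInverse (Function.surjInv hπ) (Function.rightInverse_surjInv hπ)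
      ⟨(QuotientGroup.mk' (dyn W ψ mG bG)).comp (nG W ψ mG bG 0), h1⟩,
      fun γ => MonoidHom.liftOfRightInverse_comp_apply _ _ _ _ _⟩
  obtain ⟨r, hrV, hrG, hrU⟩ : ∃ r : SS3 W N (π.comp mG) (π.comp bG) →*
      (Ln W ψ mG bG 0 ⧸ dyn W ψ mG bG),
      (∀ v, r (jV W _ _ v) = QuotientGroup.mk' (dyn W ψ mG bG) (nV W ψ mG bG 0 v)) ∧
      (∀ γ, r (jA W _ _ (π γ)) = QuotientGroup.mk' (dyn W ψ mG bG) (nG W ψ mG bG 0 γ)) ∧
      (∀ u, r (jU W _ _ u) = QuotientGroup.mk' (dyn W ψ mG bG) (nU W ψ mG bG 0 u)) := by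
    refine ⟨lift3 W (π.comp mG) (π.comp bG)
      ((QuotientGroup.mk' (dyn W ψ mG bG)).comp (nV W ψ mG bG 0)) rA
      ((QuotientGroup.mk' (dyn W ψ mG bG)).comp (nU W ψ mG bG 0)) ?_ ?_, ?_, ?_, ?_⟩
    · intro h
      rw [MonoidHom.comp_apply, MonoidHom.comp_apply, hrA, glueHn]
    · intro c
      rw [MonoidHom.comp_apply, MonoidHom.comp_apply, hrA, glueBn]
    · intro v
      exact lift3_V _ _ _ _ _ _ _ _ v
    · intro γ
      exact (lift3_A _ _ _ _ _ _ _ _ _).trans (hrA γ)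
    · intro u
      exact lift3_U _ _ _ _ _ _ _ _ u
  have h2 : r.comp (gn W ψ mG bG π hle 0) = QuotientGroup.mk' (dyn W ψ mG bG) := by
    refine extn W ψ mG bG (fun v => ?_) (fun a => ?_) (fun u => ?_)
    · rw [MonoidHom.comp_apply, gn_V, hrV]
    · rw [MonoidHom.comp_apply, gn_G, hrG]
    · rw [MonoidHom.comp_apply, gn_U, hrU]
  have h3 := DFunLike.congr_fun h2 x
  rw [MonoidHom.comp_apply, hx, map_one] at h3
  exact (QuotientGroup.eq_one_iff _).1 h3.symm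

end tower

section gen

variable {C : ∀ (G : Type) [Group G], Prop} {X : Type} {d : X} {P : ℕ}
  {H : Subgroup (T X)} (W : Ctx C d P H) {G : Type} [Group G] (ψ : G →* Wr X G)
  (mG : H →* G) (bG : Bd d P H →* G)

/-- comparison with the group itself -/
noncomputable def F0 : Ln W ψ mG bG 0 →* SS3 W G mG bG :=
  map3 W _ _ _ _ (QuotientGroup.lift (Kn ψ 0) (MonoidHom.id G) (by
    intro γ hγ
    rw [Kn_zero, Subgroup.mem_bot] at hγ
    exact hγ)) (fun _ => rfl) (fun _ => rfl)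

/-- the inverse -/
noncomputable def F1 : SS3 W G mG bG →* Ln W ψ mG bG 0 :=
  map3 W _ _ _ _ (QuotientGroup.mk' (Kn ψ 0)) (fun _ => rfl) (fun _ => rfl)

theorem F0_V (v : W.V) : F0 W ψ mG bG (nV W ψ mG bG 0 v) = jV W mG bG v :=
  map3_V _ _ _ _ _ _ _ _ v

theorem F0_G (a : G) : F0 W ψ mG bG (nG W ψ mG bG 0 a) = jA W mG bG a :=
  map3_A _ _ _ _ _ _ _ _ _

theorem F0_U (u : W.U) : F0 W ψ mG bG (nU W ψ mG bG 0 u) = jU W mG bG u :=
  map3_U _ _ _ _ _ _ _ _ u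

theorem F1_V (v : W.V) : F1 W ψ mG bG (jV W mG bG v) = nV W ψ mG bG 0 v :=
  map3_V _ _ _ _ _ _ _ _ v

theorem F1_G (a : G) : F1 W ψ mG bG (jA W mG bG a) = nG W ψ mG bG 0 a :=
  map3_A _ _ _ _ _ _ _ _ _

theorem F1_U (u : W.U) : F1 W ψ mG bG (jU W mG bG u) = nU W ψ mG bG 0 u :=
  map3_U _ _ _ _ _ _ _ _ u

theorem F0_inj : Function.Injective (F0 W ψ mG bG) := by
  have h1 : (F1 W ψ mG bG).comp (F0 W ψ mG bG) = MonoidHom.id _ := by
    refine extn W ψ mG bG (fun v => ?_) (fun a => ?_) (fun u => ?_)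
    · rw [MonoidHom.comp_apply, F0_V, F1_V, MonoidHom.id_apply]
    · rw [MonoidHom.comp_apply, F0_G, F1_G, MonoidHom.id_apply]
    · rw [MonoidHom.comp_apply, F0_U, F1_U, MonoidHom.id_apply]
  intro x y hxy
  have h2 := DFunLike.congr_fun h1 x
  have h3 := DFunLike.congr_fun h1 y
  rw [MonoidHom.comp_apply, MonoidHom.id_apply] at h2 h3
  rw [← h2, ← h3, hxy]

/-- the recursion on `V` -/
noncomputable def sV (n : ℕ) : W.V →* Wr X (Ln W ψ mG bG n) := (wmap (nV W ψ mG bG n)).comp W.rV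

/-- the recursion on `G` -/
noncomputable def sG (n : ℕ) : G →* Wr X (Ln W ψ mG bG n) := (wmap (nG W ψ mG bG n)).comp ψ

theorem sV_s (n : ℕ) (v : W.V) (x : X) :
    (sV W ψ mG bG n v).s x = nV W ψ mG bG n ((W.rV v).s x) := rfl

theorem sV_p (n : ℕ) (v : W.V) : (sV W ψ mG bG n v).p = (W.rV v).p := rfl

theorem sG_s (n : ℕ) (a : G) (x : X) :
    (sG W ψ mG bG n a).s x = nG W ψ mG bG n ((ψ a).s x) := rfl

theorem sG_p (n : ℕ) (a : G) : (sG W ψ mG bG n a).p = (ψ a).p := rfl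

theorem nG_eq_one {n : ℕ} {a : G} (h : a ∈ Kn ψ n) : nG W ψ mG bG n a = 1 := by
  have h1 : QuotientGroup.mk' (Kn ψ n) a = 1 := (QuotientGroup.eq_one_iff _).2 h
  have h2 : nG W ψ mG bG n a = jA W ((QuotientGroup.mk' (Kn ψ n)).comp mG)
    ((QuotientGroup.mk' (Kn ψ n)).comp bG) (QuotientGroup.mk' (Kn ψ n) a) := rfl
  rw [h2, h1, map_one]

theorem nG_inj {n : ℕ}
    (hi : Function.Injective (jA W ((QuotientGroup.mk' (Kn ψ n)).comp mG)
      ((QuotientGroup.mk' (Kn ψ n)).comp bG))) {a : G} (h : nG W ψ mG bG n a = 1) :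
    a ∈ Kn ψ n := by
  have h2 : nG W ψ mG bG n a = jA W ((QuotientGroup.mk' (Kn ψ n)).comp mG)
    ((QuotientGroup.mk' (Kn ψ n)).comp bG) (QuotientGroup.mk' (Kn ψ n) a) := rfl
  rw [h2] at h
  have h3 : QuotientGroup.mk' (Kn ψ n) a = 1 := hi (h.trans (map_one _).symm)
  exact (QuotientGroup.eq_one_iff _).1 h3

theorem sG_iff {n : ℕ}
    (hi : Function.Injective (jA W ((QuotientGroup.mk' (Kn ψ n)).comp mG)
      ((QuotientGroup.mk' (Kn ψ n)).comp bG))) (a : G) :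
    sG W ψ mG bG n a = 1 ↔ a ∈ Kn ψ (n + 1) := by
  rw [mem_Kn_succ]
  constructor
  · intro h
    refine ⟨?_, fun x => ?_⟩
    · rw [← sG_p W ψ mG bG n, h, Wr.one_p]
    · apply nG_inj W ψ mG bG hi
      rw [← sG_s, h, Wr.one_s]
  · rintro ⟨h1, h2⟩
    apply Wr.ext
    · funext x
      rw [sG_s, nG_eq_one W ψ mG bG (h2 x), Wr.one_s]
    · rw [sG_p, h1, Wr.one_p]

/-- the recursion on `U` -/
noncomputable def sU (n : ℕ) : W.U →* Wr X (Ln W ψ mG bG n) :=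
  stepU W (nV W ψ mG bG n) (nU W ψ mG bG n)

theorem sU_s (n : ℕ) (u : W.U) (x : X) : (sU W ψ mG bG n u).s x =
    if x = d then nU W ψ mG bG n (W.rU u) else nV W ψ mG bG n ((W.oU u).s x) := rfl

theorem sU_p (n : ℕ) (u : W.U) : (sU W ψ mG bG n u).p = (W.oU u).p := rfl

theorem succ_step (hX : Finite X) (hWR : S_WR) (hINJ : S_AMINJ) (hTLA : S_TLA)
    (hC : ClosedE C) (hH : SelfSim H)
    (e1 : ∀ (h : H) (x : X) (hx : sec h.1 x ∈ H), (ψ (mG h)).s x = mG ⟨sec h.1 x, hx⟩)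
    (e2 : ∀ h : H, (ψ (mG h)).p = root h.1)
    (e3 : ∀ (c : Bd d P H) (hc : sec c.1 d ∈ Bd d P H), (ψ (bG c)).s d = bG ⟨sec c.1 d, hc⟩)
    (e4 : ∀ (c : Bd d P H) (x : X) (hx : sec c.1 x ∈ H), x ≠ d →
      (ψ (bG c)).s x = mG ⟨sec c.1 x, hx⟩)
    (e5 : ∀ c : Bd d P H, (ψ (bG c)).p = root c.1)
    (im' : ∀ n, Function.Injective ((QuotientGroup.mk' (Kn ψ n)).comp mG))
    (ib' : ∀ n, Function.Injective ((QuotientGroup.mk' (Kn ψ n)).comp bG))
    (n : ℕ) (ih : C (Ln W ψ mG bG n)) : C (Ln W ψ mG bG (n + 1)) := by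
  have hWr : C (Wr X (Ln W ψ mG bG n)) := hWR C hC.base X _ hX ih
  obtain ⟨iV', iA', iU'⟩ := inj3 W _ _ hINJ (im' n) (ib' n)
  have iV'' : ∀ v, nV W ψ mG bG n v = 1 → v = 1 := fun v hv => iV' (hv.trans (map_one _).symm)
  have iU'' : ∀ v, nU W ψ mG bG n v = 1 → v = 1 := fun v hv => iU' (hv.trans (map_one _).symm)
  have h1 : ∀ h, sV W ψ mG bG n (W.iV h) =
      QuotientGroup.lift (Kn ψ (n + 1)) (sG W ψ mG bG n)
        (fun γ hγ => (sG_iff W ψ mG bG iA' γ).2 hγ)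
        ((QuotientGroup.mk' (Kn ψ (n + 1))).comp mG h) := by
    intro h
    change _ = sG W ψ mG bG n (mG h)
    apply Wr.ext
    · funext x
      have hx : sec h.1 x ∈ H := hH h.1 h.2 x
      rw [sV_s, sG_s, W.rV_s h x hx, e1 h x hx, glueHn]
    · rw [sV_p, sG_p, W.rV_p, e2]
  have h2 : ∀ c, QuotientGroup.lift (Kn ψ (n + 1)) (sG W ψ mG bG n)
        (fun γ hγ => (sG_iff W ψ mG bG iA' γ).2 hγ)
        ((QuotientGroup.mk' (Kn ψ (n + 1))).comp bG c) = sU W ψ mG bG n (W.iU c) := by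
    intro c
    have hcd : sec c.1 d ∈ Bd d P H := sec_mem_Bd c.2
    change sG W ψ mG bG n (bG c) = _
    apply Wr.ext
    · funext x
      rw [sG_s, sU_s]
      by_cases hx : x = d
      · subst hx
        rw [if_pos rfl, e3 c hcd, W.rU_i c hcd, glueBn]
      · have hcx : sec c.1 x ∈ H := c.2.2.2 0 x hx
        rw [if_neg hx, e4 c x hcx hx, W.oU_i c x hcx hx, glueHn]
    · rw [sG_p, sU_p, e5, W.oU_ip]
  refine tool W _ _ hINJ hTLA hC (im' (n + 1)) (ib' (n + 1))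
    (lift3 W _ _ (sV W ψ mG bG n) _ (sU W ψ mG bG n) h1 h2) hWr ?_ ?_ ?_
  · intro B hB v hv hF
    rw [lift3_V] at hF
    apply W.rV_inj B hB v hv
    apply Wr.ext
    · funext x
      apply iV''
      rw [← sV_s, hF, Wr.one_s]
    · rw [← sV_p W ψ mG bG n, hF]
      rfl
  · intro a hF
    rw [lift3_A] at hF
    obtain ⟨γ, rfl⟩ := QuotientGroup.mk'_surjective (Kn ψ (n + 1)) a
    exact (QuotientGroup.eq_one_iff _).2 ((sG_iff W ψ mG bG iA' γ).1 hF)
  · intro B hB u hu hF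
    rw [lift3_U] at hF
    have h3 : ∀ x, (if x = d then nU W ψ mG bG n (W.rU u) else
        nV W ψ mG bG n ((W.oU u).s x)) = 1 := fun x => by
      rw [← sU_s, hF, Wr.one_s]
    apply W.rU_inj B hB u hu
    · have h4 := h3 d
      rw [if_pos rfl] at h4
      exact iU'' _ h4
    · apply Wr.ext
      · funext x
        by_cases hx : x = d
        · subst hx
          exact W.oU_s u
        · have h4 := h3 x
          rw [if_neg hx] at h4
          exact iV'' _ h4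
      · rw [← sU_p W ψ mG bG n, hF]
        rfl

theorem colim_step (hC : ClosedE C) {N : Type} [Group N] (π : G →* N)
    (hπ : Function.Surjective π) (hle : ∀ n, ∀ γ ∈ Kn ψ n, π γ = 1)
    (hker : ∀ γ, π γ = 1 → ∃ n, γ ∈ Kn ψ n) (hCn : ∀ n, C (Ln W ψ mG bG n)) :
    C (SS3 W N (π.comp mG) (π.comp bG)) := by
  refine hC.base.colim ℕ (fun i j => ⟨max i j, le_max_left i j, le_max_right i j⟩)
    (fun n => Ln W ψ mG bG n) (fun i j h => fn W ψ mG bG i j h)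
    (SS3 W N (π.comp mG) (π.comp bG))
    (fun n => gn W ψ mG bG π hle n) ?_ ?_ ?_ ?_ ?_ hCn
  · intro i h x
    exact fn_id W ψ mG bG h x
  · intro i j k h h' x
    exact fn_comp W ψ mG bG h h' x
  · intro i j h x
    exact gn_fn W ψ mG bG π hle h x
  · intro y
    exact ⟨0, gn_surj W ψ mG bG π hle hπ y⟩
  · intro i x hx
    obtain ⟨x0, rfl⟩ := fn_surj W ψ mG bG x
    rw [gn_fn] at hx
    obtain ⟨j, hj⟩ := (mem_dyn W ψ mG bG).1 (gn_ker W ψ mG bG π hle hπ hker hx)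
    refine ⟨max i j, le_max_left i j, ?_⟩
    rw [fn_comp, ← fn_comp W ψ mG bG (Nat.zero_le j) (le_max_right i j) x0, hj, map_one]

theorem generic (hX : Finite X) (hWR : S_WR) (hINJ : S_AMINJ) (hTLA : S_TLA)
    (hC : ClosedE C) (hH : SelfSim H) {N : Type} [Group N]
    (e1 : ∀ (h : H) (x : X) (hx : sec h.1 x ∈ H), (ψ (mG h)).s x = mG ⟨sec h.1 x, hx⟩)
    (e2 : ∀ h : H, (ψ (mG h)).p = root h.1)
    (e3 : ∀ (c : Bd d P H) (hc : sec c.1 d ∈ Bd d P H), (ψ (bG c)).s d = bG ⟨sec c.1 d, hc⟩)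
    (e4 : ∀ (c : Bd d P H) (x : X) (hx : sec c.1 x ∈ H), x ≠ d →
      (ψ (bG c)).s x = mG ⟨sec c.1 x, hx⟩)
    (e5 : ∀ c : Bd d P H, (ψ (bG c)).p = root c.1)
    (π : G →* N) (hπ : Function.Surjective π) (hk : ∀ γ, π γ = 1 ↔ Dies ψ γ)
    (im : Function.Injective (π.comp mG)) (ib : Function.Injective (π.comp bG))
    (h0 : C (SS3 W G mG bG)) : C (SS3 W N (π.comp mG) (π.comp bG)) := by
  have hle : ∀ n, ∀ γ ∈ Kn ψ n, π γ = 1 := fun n γ h => (hk γ).2 ((dies_iff ψ γ).2 ⟨n, h⟩)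
  have hker : ∀ γ, π γ = 1 → ∃ n, γ ∈ Kn ψ n := fun γ h => (dies_iff ψ γ).1 ((hk γ).1 h)
  have im' : ∀ n, Function.Injective ((QuotientGroup.mk' (Kn ψ n)).comp mG) := by
    intro n
    refine Function.Injective.of_comp (f := QuotientGroup.lift (Kn ψ n) π (hle n)) ?_
    exact im
  have ib' : ∀ n, Function.Injective ((QuotientGroup.mk' (Kn ψ n)).comp bG) := by
    intro n
    refine Function.Injective.of_comp (f := QuotientGroup.lift (Kn ψ n) π (hle n)) ?_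
    exact ib
  have hCn : ∀ n, C (Ln W ψ mG bG n) := by
    intro n
    induction n with
    | zero => exact hC.base.of_injective _ _ (F0 W ψ mG bG) (F0_inj W ψ mG bG) h0
    | succ n ih =>
      exact succ_step W ψ mG bG hX hWR hINJ hTLA hC hH e1 e2 e3 e4 e5 im' ib' n ih
  exact colim_step W ψ mG bG hC π hπ hle hker hCn

end gen

/-- APP -/
theorem t_app (hWR : S_WR) (hINJ : S_AMINJ) (hTLA : S_TLA) (hCOV : S_COV) : S_APP := by
  intro C hC X hX d P hP H M E h1 h2 hH hM hE hE' hHM W hL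
  obtain ⟨ψ, π, c1, c2, c3, c4, c5, c6, c7, c8⟩ := hCOV X d P hP M E h1 h2 hM hE hE'
  -- the homomorphism to the group generated by `M` and `Bd d P M`
  have hcompat : ∀ c : E, Subgroup.inclusion (le_sup_left : M ≤ M ⊔ Bd d P M)
      (Subgroup.inclusion h1 c) = Subgroup.inclusion (le_sup_right : Bd d P M ≤ M ⊔ Bd d P M)
      (Subgroup.inclusion h2 c) := fun c => rfl
  let π' : Cov d P M E h1 h2 →* ↥(M ⊔ Bd d P M) :=
    Am.lift _ _ (Subgroup.inclusion le_sup_left) (Subgroup.inclusion le_sup_right) hcompat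
  have hπ' : (M ⊔ Bd d P M).subtype.comp π' = π := by
    refine Am.hom_ext _ _ (fun a => ?_) (fun b => ?_)
    · rw [c6, MonoidHom.comp_apply]
      have h3 : π' (Am.inl _ _ a) = Subgroup.inclusion le_sup_left a := Am.lift_inl _ _ _ _ _ a
      rw [h3]
      rfl
    · rw [c7, MonoidHom.comp_apply]
      have h3 : π' (Am.inr _ _ b) = Subgroup.inclusion le_sup_right b := Am.lift_inr _ _ _ _ _ b
      rw [h3]
      rfl
  have hval : ∀ γ, ((π' γ : ↥(M ⊔ Bd d P M)) : T X) = π γ := fun γ => DFunLike.congr_fun hπ' γ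
  have hsurj : Function.Surjective π' := by
    have h3 : M ⊔ Bd d P M ≤ π'.range.map (M ⊔ Bd d P M).subtype := by
      refine sup_le ?_ ?_
      · intro g hg
        exact ⟨π' (Am.inl _ _ ⟨g, hg⟩), ⟨_, rfl⟩, (hval _).trans (c6 ⟨g, hg⟩)⟩
      · intro g hg
        exact ⟨π' (Am.inr _ _ ⟨g, hg⟩), ⟨_, rfl⟩, (hval _).trans (c7 ⟨g, hg⟩)⟩
    intro y
    obtain ⟨z, ⟨γ, hγ⟩, hz⟩ := h3 y.2
    exact ⟨γ, hγ.trans (Subtype.ext hz)⟩
  have hker : ∀ γ, π' γ = 1 ↔ Dies ψ γ := by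
    intro γ
    rw [← c8, ← hval]
    exact ⟨fun h => by rw [h]; rfl, fun h => Subtype.ext h⟩
  let cM : M →* Cov d P M E h1 h2 := Am.inl (Subgroup.inclusion h1) (Subgroup.inclusion h2)
  let cB : Bd d P M →* Cov d P M E h1 h2 := Am.inr (Subgroup.inclusion h1) (Subgroup.inclusion h2)
  have hm : π'.comp (cM.comp (Subgroup.inclusion hHM)) =
      Subgroup.inclusion (hHM.trans (le_sup_left : M ≤ M ⊔ Bd d P M)) := by
    refine MonoidHom.ext fun h => ?_
    have h3 : π' (cM (Subgroup.inclusion hHM h)) =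
        Subgroup.inclusion (le_sup_left : M ≤ M ⊔ Bd d P M) (Subgroup.inclusion hHM h) :=
      Am.lift_inl _ _ _ _ _ _
    exact h3
  have hb : π'.comp (cB.comp (Subgroup.inclusion (Bd_mono hHM))) =
      Subgroup.inclusion ((Bd_mono hHM).trans (le_sup_right : Bd d P M ≤ M ⊔ Bd d P M)) := by
    refine MonoidHom.ext fun h => ?_
    have h3 : π' (cB (Subgroup.inclusion (Bd_mono hHM) h)) =
        Subgroup.inclusion (le_sup_right : Bd d P M ≤ M ⊔ Bd d P M)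
          (Subgroup.inclusion (Bd_mono hHM) h) :=
      Am.lift_inr _ _ _ _ _ _
    exact h3
  have key := generic W ψ (cM.comp (Subgroup.inclusion hHM))
    (cB.comp (Subgroup.inclusion (Bd_mono hHM))) hX hWR hINJ hTLA hC hH
    (fun h x hx => c1 (Subgroup.inclusion hHM h) x (hHM hx))
    (fun h => c2 (Subgroup.inclusion hHM h))
    (fun c hc => c3 (Subgroup.inclusion (Bd_mono hHM) c) (Bd_mono hHM hc))
    (fun c x hx hxd => c4 (Subgroup.inclusion (Bd_mono hHM) c) x (hHM hx) hxd)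
    (fun c => c5 (Subgroup.inclusion (Bd_mono hHM) c))
    π' hsurj hker
    (by rw [hm]; exact Subgroup.inclusion_injective _)
    (by rw [hb]; exact Subgroup.inclusion_injective _) hL
  rw [hm, hb] at key
  exact key

end Pool.Agent.Y624.PA
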